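import Pool.Agent.Lib.MP_dd4ef3_lc.BE.Final

namespace Pool.Agent.Results.MP_dd4ef3_lc.BollobasErdos

/-- The Bollobás–Erdős conjecture for large `n`, for colourings in which an edge may have
different colours at its two ends: `c v w` is the colour of the edge `vw` at `v`. If every
vertex meets fewer than `⌊n/2⌋` edges of each colour, there is a Hamilton cycle (`σ` is the
successor map) whose two edges at each vertex have different colours at that vertex. -/
theorem result :
    ∃ n₀ : ℕ, ∀ n : ℕ, n₀ ≤ n → ∀ (C : Type) (c : Fin n → Fin n → C),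
      (∀ (v : Fin n) (a : C), Set.ncard {w : Fin n | w ≠ v ∧ c v w = a} < n / 2) →
        ∃ σ : Equiv.Perm (Fin n), (∀ u v, σ.SameCycle u v) ∧
          ∀ v, σ v ≠ v ∧ c v (σ⁻¹ v) ≠ c v (σ v) := by
  obtain ⟨n₀, h⟩ := Pool.Agent.BE.local_bollobas_erdos
  refine ⟨n₀, fun n hn C c hc => ?_⟩
  obtain ⟨σ, h1, h2⟩ := h n hn C c hc
  exact ⟨σ, h2, fun v => ⟨(h1 v).1, by simpa using (h1 (σ⁻¹ v)).2.2⟩⟩

end Pool.Agent.Results.MP_dd4ef3_lc.BollobasErdos
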