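import Pool.Agent.Lib.MP_dd4ef3_lc.H90Main

namespace Pool.Agent.Results.MP_dd4ef3_lc.GallaiColourings

open Pool.Agent.PCHam Pool.Agent.Lib.MP_dd4ef3_lc

/-- Let the edges of `K_n`, `n ≥ 2`, be coloured with any number of colours so that no triangle
has three different colours. Then there is a properly coloured Hamilton cycle if and only if for
every nonempty proper module `T` some properly coloured cycle factor has an edge leaving `T`. -/
theorem result :
    ∀ (n : ℕ) (C : Type) (col : Sym2 (Fin n) → C), 2 ≤ n → IsGallai col →
      (HasPCHamiltonCycle col ↔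
        ∀ T : Set (Fin n), T.Nonempty → T ≠ Set.univ → IsModule col T →
          ∃ σ : Equiv.Perm (Fin n), IsPCFactor col σ ∧ ∃ v ∈ T, σ v ∉ T) := by
  intro n C col hn h
  have : Nontrivial (Fin n) := Fin.nontrivial_iff_two_le.2 hn
  exact gallai_iff h

end Pool.Agent.Results.MP_dd4ef3_lc.GallaiColourings
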