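import Pool.Agent.Lib.MP_dd4ef3_lc.H90Gadget

namespace Pool.Agent.Results.MP_dd4ef3_lc.GallaiPolyTime

open Pool.Agent.PCHam Pool.Agent.Lib.MP_dd4ef3_lc N68a2faeb

/-- The properly coloured Hamilton cycle problem for Gallai colourings (no triangle has three
different colours), with any number of colours, is solvable in deterministic polynomial time. -/
theorem result :
    ∃ d : List (List ℕ) → Bool, IsPolyTime d ∧ ∀ (n : ℕ) (col : Sym2 (Fin n) → ℕ),
      d (List.ofFn fun i => List.ofFn fun j => col s(i, j)) = true ↔
        IsGallai col ∧ HasPCHamiltonCycle col :=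
  ⟨decider, decider_pt, decider_iff⟩

end Pool.Agent.Results.MP_dd4ef3_lc.GallaiPolyTime
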