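import Pool.Agent.Lib.MP_dd4ef3_lc.H61Gad

namespace Pool.Agent.Results.MP_dd4ef3_lc.SpanningCircuitPolyTime

open Pool.Agent.Lib.MP_dd4ef3_lc.H61 N68a2faeb

/-- Whether an edge-coloured complete graph, with any number of colours, has a properly coloured
closed trail through all its vertices is decidable in deterministic polynomial time. -/
theorem result :
    ∃ d : List (List ℕ) → Bool, IsPolyTime d ∧ ∀ (n : ℕ) (col : Sym2 (Fin n) → ℕ),
      d (List.ofFn fun i => List.ofFn fun j => col s(i, j)) = true ↔ HasPCSpanningCircuit col :=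
  ⟨dec, dec_pt, dec_iff⟩

end Pool.Agent.Results.MP_dd4ef3_lc.SpanningCircuitPolyTime
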